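import Mathlib

set_option autoImplicit false

namespace Pool.Agent.Results.MP_b69f9e_co.No

open Finset

variable {α : Type}

def Occ (s : List α) (i j p : ℕ) : Prop :=
  p + (j - i) < s.length ∧ ∀ r ≤ j - i, s[p + r]? = s[i + r]?

def RCR (s : List α) (i j : ℕ) : Prop :=
  i ≤ j ∧ j < s.length ∧ ∃ i', i < i' ∧ Occ s i j i' ∧ (∀ p, i < p → p < i' → ¬Occ s i j p) ∧
    (i' + (j - i) + 1 = s.length ∨ s[j + 1]? ≠ s[i' + (j - i) + 1]?)

def Good (s : List α) (i j : ℕ) : Prop :=
  i ≤ j ∧ ∃ e, 0 < e ∧ j + e + 1 < s.length ∧ (∀ r, i ≤ r → r ≤ j → s[r + e]? = s[r]?) ∧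
    (∀ p, j < p → p < j + e → s[p]? ≠ s[j]?) ∧ s[j + 1]? ≠ s[j + e + 1]?

theorem Good.rcr {s : List α} {i j : ℕ} (h : Good s i j) : RCR s i j := by
  obtain ⟨a, e, b, c, d, f, g⟩ := h
  refine ⟨a, by omega, i + e, by omega, ⟨by omega, fun r hr => ?_⟩, fun p h1 h2 o => ?_, .inr ?_⟩
  · rw [add_right_comm]; exact d _ (by omega) (by omega)
  · exact f _ (by omega) (by omega) ((o.2 _ le_rfl).trans (by rw [Nat.add_sub_cancel' a]))
  · rwa [add_right_comm i, Nat.add_sub_cancel' a]

theorem Good.right {s : List α} {i j : ℕ} (h : Good s i j) (v : List α) : Good (s ++ v) i j := by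
  obtain ⟨a, e, b, c, d, f, g⟩ := h
  refine ⟨a, e, b, by simp; omega, fun r h1 h2 => ?_, fun p h1 h2 => ?_, ?_⟩ <;>
    rw [List.getElem?_append_left (by omega), List.getElem?_append_left (by omega)]
  exacts [d r h1 h2, f p h1 h2, g]

theorem Good.left {s : List α} {i j : ℕ} (h : Good s i j) (u : List α) :
    Good (u ++ s) (u.length + i) (u.length + j) := by
  obtain ⟨a, e, b, c, d, f, g⟩ := h
  have t : ∀ n, (u ++ s)[u.length + n]? = s[n]? := fun n => by simp [List.getElem?_append_right]
  refine ⟨by omega, e, b, by simp; omega, fun r h1 h2 => ?_, fun p h1 h2 => ?_, ?_⟩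
  · obtain ⟨r, rfl⟩ := Nat.exists_eq_add_of_le (le_self_add.trans h1)
    rw [add_assoc, t, t]; exact d r (by omega) (by omega)
  · obtain ⟨r, rfl⟩ := Nat.exists_eq_add_of_le (le_self_add.trans h1.le)
    rw [t, t]; exact f r (by omega) (by omega)
  · simpa only [add_assoc, t] using g

theorem new (a z : List α) (c x y : α) (h1 : c ∉ a) (h2 : c ∉ y :: z) (h3 : y ≠ x) (i : ℕ)
    (hi : i ≤ a.length) : Good (a ++ [c] ++ y :: z ++ (a ++ [c]) ++ [x]) i a.length := by
  have t : ∀ n, (a ++ [c] ++ y :: z ++ (a ++ [c]) ++ [x])[n + (a.length + z.length + 2)]? =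
      (a ++ [c] ++ [x])[n]? := fun n => by
    rw [List.append_assoc _ (a ++ [c]), List.getElem?_append_right (by simp; omega)]
    exact congrArg _ (by simp; omega)
  refine ⟨hi, a.length + z.length + 2, by omega, by simp; omega, fun r _ h => ?_, fun p p1 p2 e => ?_, ?_⟩
  · rw [t, show a ++ [c] ++ y :: z ++ (a ++ [c]) ++ [x] = (a ++ [c]) ++ (y :: z ++ a ++ [c, x]) by simp,
      List.getElem?_append_left (l₁ := a ++ [c]) (by simp; omega),
      List.getElem?_append_left (l₁ := a ++ [c]) (by simp; omega)]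
  · rw [show a ++ [c] ++ y :: z ++ (a ++ [c]) ++ [x] = (a ++ [c]) ++ ((y :: z ++ a) ++ [c, x]) by simp,
      List.getElem?_append_right (by simp; omega), List.getElem?_append_left (by simp; omega)] at e
    simp only [List.append_assoc, List.getElem?_append_right le_rfl, Nat.sub_self] at e
    exact (List.mem_append.1 (List.mem_of_getElem? e)).elim h2 h1
  · rw [add_right_comm, t]
    simpa [List.getElem?_append_right] using h3

def W (T : ℕ) : ℕ → ℕ → List (ℕ × ℕ)
  | 0, _ => []
  | d + 1, 0 => W T d T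
  | d + 1, t + 1 => W T (d + 1) t ++ W T d t ++ [(d, t)]

variable (T : ℕ)

theorem mem : ∀ d t, ∀ x ∈ W T d t, x.1 + 1 < d ∨ x.1 + 1 = d ∧ x.2 < t
  | 0, _ => by simp [W]
  | d + 1, 0 => fun x h => by rw [W] at h; have := mem d T x h; omega
  | d + 1, t + 1 => fun x h => by
    rw [W, List.mem_append, List.mem_append, List.mem_singleton] at h
    rcases h with (h | h) | rfl
    · have := mem (d + 1) t x h; omega
    · have := mem d t x h; omega
    · simp

theorem pre (d t u : ℕ) (h : t < u) : ∃ y z, W T (d + 1) u = W T (d + 1) t ++ y :: z ∧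
    y.1 ≤ d ∧ ∀ x ∈ y :: z, x.1 < d ∨ t ≤ x.2 := by
  have s : ∀ u, ∀ x ∈ W T d u ++ [(d, u)], x.1 < d ∨ x = (d, u) := fun u x h =>
    (List.mem_append.1 h).imp (fun h => by have := mem T d u x h; omega) List.mem_singleton.1
  induction h with
  | refl =>
    obtain ⟨y, z, e⟩ := List.exists_cons_of_ne_nil (l := W T d t ++ [(d, t)]) (by simp)
    have := s t
    rw [e] at this
    exact ⟨y, z, by rw [W, List.append_assoc, e], by rcases this y (by simp) with h | rfl <;> omega,
      fun x h => (this x h).imp_right fun h => by simp [h]⟩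
  | @step u l ih =>
    obtain ⟨y, z, e, a, b⟩ := ih
    refine ⟨y, z ++ (W T d u ++ [(d, u)]), by simp [W, e], a, fun x h => ?_⟩
    rcases List.mem_append.1 (show x ∈ y :: z ++ _ from h) with h | h
    exacts [b x h, (s u x h).imp_right fun h => by subst h; exact le_of_lt l]

theorem pre2 (d : ℕ) : ∀ t, ∃ z, W T (d + 2) t = W T (d + 1) T ++ z ∧
    ∀ x ∈ z, x.1 ≠ d ∨ x.2 + 1 < t
  | 0 => ⟨[], by simp [W], by simp⟩
  | t + 1 => by
    obtain ⟨z, e, h⟩ := pre2 d t
    refine ⟨z ++ W T (d + 1) t ++ [(d + 1, t)], by simp [W, e], fun x hx => ?_⟩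
    rw [List.mem_append, List.mem_append, List.mem_singleton] at hx
    rcases hx with (g | g) | rfl
    · have := h x g; omega
    · have := mem T _ _ x g; omega
    · simp

theorem good (d t : ℕ) (h : t + 1 < T) (i : ℕ) (hi : i < (W T d (t + 1)).length) :
    Good (W T (d + 1) (t + 2)) i ((W T d (t + 1)).length - 1) := by
  cases d with
  | zero => simp [W] at hi
  | succ d =>
  obtain ⟨z, e, hz⟩ := pre2 T d (t + 1)
  obtain ⟨y, w, f, a, b⟩ := pre T d _ _ h
  rw [W, e, f, List.append_assoc _ _ z]
  rw [W] at hi ⊢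
  rw [List.length_append, List.length_singleton] at hi ⊢
  refine new _ (w ++ z) _ _ y (fun g => ?_) (fun g => ?_) (fun g => by simp [g] at a) i (by omega)
  · rcases List.mem_append.1 g with g | g <;> have := mem T _ _ _ g <;> omega
  · rcases List.mem_append.1 (show _ ∈ y :: w ++ z from g) with g | g
    · have := b _ g; omega
    · have := hz _ g; omega

theorem len : ∀ d, ∀ t ≤ T, (W T d t).length < (T + 1) ^ d
  | 0, _, _ => by simp [W]
  | d + 1, t, h => by
    have : ∀ t ≤ T, (W T (d + 1) t).length < (t + 1) * (T + 1) ^ d := fun t h => by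
      induction t with
      | zero => simpa [W] using len d T le_rfl
      | succ t ih =>
        have := len d t (by omega)
        have := ih (by omega)
        simp only [W, List.length_append, List.length_singleton]
        linarith
    exact (this t h).trans_le (by rw [pow_succ']; exact Nat.mul_le_mul_right _ (by omega))

theorem low : ∀ d t, t.choose (d + 1) ≤ (W T (d + 1) t).length
  | _, 0 => by simp
  | 0, t + 1 => by have := low 0 t; simp [W] at this ⊢; omega
  | d + 1, t + 1 => by
    have := low (d + 1) t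
    have := low d t
    rw [W, Nat.choose_succ_succ']
    simp only [List.length_append]
    omega

theorem main : ∀ d, ∀ t ≤ T, ∃ (P : Finset ℕ) (Q : Finset (ℕ × ℕ)), P ⊆ range (W T d t).length ∧
    (∀ x ∈ Q, x.1 ∈ P ∧ Good (W T d t) x.1 x.2) ∧ P.card * (T + 1) ≤ d * (T + 1) ^ d ∧
    d * (W T d t).length * (T + 1) ≤ (Q.card + (W T d t).length) * (T + 1) + d ^ 2 * (T + 1) ^ d
  | 0, _, _ => ⟨∅, ∅, by simp⟩
  | d + 1, t, h => by
    have l0 := len T d T le_rfl
    have : ∀ t ≤ T, ∃ (P : Finset ℕ) (Q : Finset (ℕ × ℕ)), P ⊆ range (W T (d + 1) t).length ∧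
        (∀ x ∈ Q, x.1 ∈ P ∧ Good (W T (d + 1) t) x.1 x.2) ∧ range (W T d T).length ⊆ P ∧
        (∀ x ∈ Q, (W T d T).length ≤ x.1 ∨ x.2 + 1 < (W T d t).length) ∧
        P.card * (T + 1) ≤ (T + 1) ^ (d + 1) + t * d * (T + 1) ^ d ∧
        (d + 1) * (W T (d + 1) t).length * (T + 1) ≤ (Q.card + (W T (d + 1) t).length) * (T + 1) +
          d * (T + 1) ^ (d + 1) + t * (d ^ 2 + d + 1) * (T + 1) ^ d := fun t h => by
      induction t with
      | zero =>
        refine ⟨range (W T d T).length, ∅, by rw [W], by simp, subset_rfl, by simp, ?_, ?_⟩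
        · rw [card_range, pow_succ]; nlinarith
        · rw [W, card_empty, pow_succ]; nlinarith [Nat.mul_le_mul_left (d * (T + 1)) l0.le]
      | succ t ih =>
      obtain ⟨P, Q, a1, a2, a3, a4, a5, a6⟩ := ih (by omega)
      obtain ⟨P', Q', b1, b2, b3, b4⟩ := main d t (by omega)
      set n := (W T (d + 1) t).length with hn
      have m1 : ∀ t u, t < u → (W T d t).length < (W T d u).length ∨ d = 0 := fun t u l => by
        cases d with
        | zero => exact .inr rfl
        | succ d => obtain ⟨y, z, e, -⟩ := pre T d t u l; simp [e]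
      have m2 : (W T d t).length ≤ (W T d T).length := by
        rcases m1 t T h with g | rfl
        exacts [g.le, by simp [W]]
      have m3 : (W T d T).length ≤ n := by simpa using card_le_card (a3.trans a1)
      obtain ⟨N, c1, c2⟩ : ∃ N : Finset (ℕ × ℕ), (∀ x ∈ N, x.1 < (W T d t).length ∧
          x.2 + 1 = (W T d t).length ∧ Good (W T (d + 1) (t + 1)) x.1 x.2) ∧
          (W T d t).length * (T + 1) ≤ N.card * (T + 1) + (T + 1) ^ d := by
        cases t with
        | zero =>
          refine ⟨∅, by simp, ?_⟩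
          cases d with
          | zero => simp [W]
          | succ d => rw [W, pow_succ]; nlinarith [len T d T le_rfl]
        | succ t =>
          refine ⟨range (W T d (t + 1)).length ×ˢ {(W T d (t + 1)).length - 1}, fun x hx => ?_, by simp⟩
          simp only [mem_product, mem_range, mem_singleton] at hx
          exact ⟨hx.1, by omega, hx.2 ▸ good T d t h _ hx.1⟩
      have i : Function.Injective fun x : ℕ × ℕ => (n + x.1, n + x.2) := fun x y e =>
        Prod.ext (by simpa using congrArg Prod.fst e) (by simpa using congrArg Prod.snd e)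
      have L : (W T (d + 1) (t + 1)).length = n + (W T d t).length + 1 := by simp [W, hn, add_assoc]
      refine ⟨P ∪ P'.image (n + ·), Q ∪ N ∪ Q'.image fun x => (n + x.1, n + x.2), fun x hx => ?_,
        fun x hx => ?_, a3.trans subset_union_left, fun x hx => ?_, ?_, ?_⟩
      · simp only [mem_union, mem_image, mem_range, L] at hx ⊢
        rcases hx with g | ⟨y, g, rfl⟩
        · have := mem_range.1 (a1 g); omega
        · have := mem_range.1 (b1 g); omega
      · simp only [mem_union, mem_image] at hx ⊢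
        rcases hx with (g | g) | ⟨y, g, rfl⟩
        · exact ⟨.inl (a2 x g).1, by rw [W]; exact ((a2 x g).2.right _).right _⟩
        · exact ⟨.inl (a3 (mem_range.2 ((c1 x g).1.trans_le m2))), (c1 x g).2.2⟩
        · exact ⟨.inr ⟨_, (b2 y g).1, rfl⟩, by rw [W]; exact ((b2 y g).2.left _).right _⟩
      · simp only [mem_union, mem_image] at hx
        rcases m1 t (t + 1) t.lt_succ_self with g' | rfl
        · rcases hx with (g | g) | ⟨y, g, rfl⟩
          · have := a4 x g; omega
          · have := c1 x g; omega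
          · omega
        · simp [W]
      · have := Nat.mul_le_mul_right (T + 1) ((card_union_le _ _).trans
          (Nat.add_le_add_left (card_image_le (s := P') (f := (n + ·))) P.card))
        linarith
      · rw [card_union_of_disjoint, card_union_of_disjoint, card_image_of_injective _ i, L]
        · have : d * (T + 1) ≤ d * (T + 1) ^ d := by
            cases d with
            | zero => simp
            | succ d => exact Nat.mul_le_mul_left _ (Nat.le_self_pow d.succ_ne_zero _)
          linarith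
        · refine disjoint_left.2 fun x g g' => ?_
          have := a4 x g
          have := c1 x g'
          omega
        · refine disjoint_left.2 fun x g g' => ?_
          obtain ⟨y, -, rfl⟩ := mem_image.1 g'
          rcases mem_union.1 g with g | g
          · have := mem_range.1 (a1 (a2 _ g).1); omega
          · have := (c1 _ g).1; omega
    obtain ⟨P, Q, a1, a2, -, -, a5, a6⟩ := this t h
    refine ⟨P, Q, a1, a2, ?_, ?_⟩ <;> rw [pow_succ (T + 1)] at *
    · nlinarith [Nat.mul_le_mul_right (d * (T + 1) ^ d) (h.trans T.le_succ)]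
    · nlinarith [Nat.mul_le_mul_right ((d ^ 2 + d + 1) * (T + 1) ^ d) (h.trans T.le_succ)]

theorem result (C : ℝ) : ∃ (s : List (ℕ × ℕ)) (P : Finset ℕ), 1 ≤ s.length ∧ P ⊆ range s.length ∧
    C * (s.length + P.card * Real.logb 2 s.length) <
      ({x : ℕ × ℕ | x.1 ∈ P ∧ RCR s x.1 x.2}.ncard : ℝ) := by
  obtain ⟨c, hc⟩ := exists_nat_ge C
  let D := c + 2
  obtain ⟨m, h1, h2⟩ := (((tendsto_pow_const_div_const_pow_of_one_lt 1 (one_lt_two (α := ℝ))).eventually
    (gt_mem_nhds (show (0 : ℝ) < 1 / (2 ^ D * D.factorial * (D ^ 2 + c * D ^ 2)) by positivity))).and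
    (Filter.eventually_ge_atTop (2 * D))).exists
  obtain ⟨T, hT⟩ : ∃ T, 2 ^ m = T + 1 := ⟨_, (Nat.sub_add_cancel Nat.one_le_two_pow).symm⟩
  have t := hT ▸ m.lt_two_pow_self
  obtain ⟨P, Q, a1, a2, a3, a4⟩ := main T D T le_rfl
  have l1 := len T D T le_rfl
  have l2 : T.choose D ≤ (W T D T).length := low T (c + 1) T
  have l3 := (Nat.choose_pos (by omega)).trans_le l2
  refine ⟨W T D T, P, l3, a1, lt_of_lt_of_le ?_ (Nat.cast_le.2 ((Set.ncard_coe_finset Q).ge.trans
    (Set.ncard_le_ncard (fun x hx => ⟨(a2 x hx).1, (a2 x hx).2.rcr⟩) (((Set.finite_lt_nat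
      (W T D T).length).prod (Set.finite_lt_nat _)).subset fun x hx =>
        ⟨hx.2.1.trans_lt hx.2.2.1, hx.2.2.1⟩))))⟩
  generalize (W T D T).length = n at *
  have g : Real.logb 2 n ≤ D * m := by
    rw [Real.logb_le_iff_le_rpow one_lt_two (by exact_mod_cast l3), ← Nat.cast_mul, Real.rpow_natCast,
      mul_comm, pow_mul]
    exact_mod_cast (hT ▸ l1).le
  have g0 : 0 ≤ Real.logb 2 n := Real.logb_nonneg one_lt_two (by exact_mod_cast l3)
  have l4 : (T + 1) ^ D ≤ 2 ^ D * D.factorial * n := by
    have := Nat.pow_le_choose (α := ℝ) D T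
    rw [div_le_iff₀ (by positivity)] at this
    norm_cast at this
    have := Nat.pow_le_pow_left (show T + 1 ≤ 2 * (T + 1 - D) by omega) D
    rw [mul_pow] at this
    nlinarith [Nat.mul_le_mul_left (2 ^ D * D.factorial) l2, Nat.mul_le_mul_left (2 ^ D) ‹_ ≤ _ * D.factorial›]
  rw [div_lt_div_iff₀ (by positivity) (by positivity), pow_one, one_mul] at h1
  norm_cast at h1
  have : c * (n + P.card * (D * m)) < Q.card := by
    refine Nat.lt_of_mul_lt_mul_right (a := T + 1) ?_
    have b1 := Nat.mul_le_mul_left (c * D * m) a3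
    have b2 := Nat.mul_le_mul_left (m * (D ^ 2 + c * D ^ 2)) l4
    have b3 := Nat.mul_lt_mul_of_pos_right (hT ▸ h1) l3
    have b4 := Nat.mul_le_mul_right (D ^ 2 * (T + 1) ^ D) (show 1 ≤ m by omega)
    have e : D * n * (T + 1) = c * n * (T + 1) + 2 * n * (T + 1) := by simp only [D]; ring
    linarith
  refine lt_of_le_of_lt ?_ (Nat.cast_lt.2 this)
  push_cast
  gcongr

end Pool.Agent.Results.MP_b69f9e_co.No
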